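import Mathlib

/-!
A bound for the Davenport constant of a finite abelian group: if `g ^ l = 1` for all `g ∈ G` and
`|G| ≤ 2 ^ R`, then every family of at least `l * R ^ Ω(l)` elements of `G` has a nonempty subfamily
with product `1`.
-/

set_option autoImplicit false

namespace Pool.Agent.R495

open Finset

/-- every family of at least `n` elements of `G` has a nonempty subfamily with product `1` -/
def Dav (G : Type) [CommGroup G] (n : ℕ) : Prop :=
  ∀ (ι : Type) (s : Finset ι) (f : ι → G), n ≤ s.card →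
    ∃ t ⊆ s, t.Nonempty ∧ ∏ i ∈ t, f i = 1

theorem Dav.mono {G : Type} [CommGroup G] {n m : ℕ} (h : Dav G n) (hnm : n ≤ m) : Dav G m :=
  fun ι s f hs => h ι s f (hnm.trans hs)

theorem Dav.small {G : Type} [CommGroup G] {n : ℕ} (h : Dav G n) {ι : Type} (s : Finset ι)
    (f : ι → G) (hs : n ≤ s.card) :
    ∃ t ⊆ s, t.Nonempty ∧ t.card ≤ n ∧ ∏ i ∈ t, f i = 1 := by
  obtain ⟨s', hs', hc⟩ := Finset.exists_subset_card_eq hs
  obtain ⟨t, ht, hne, hp⟩ := h ι s' f hc.ge
  exact ⟨t, ht.trans hs', hne, (card_le_card ht).trans hc.le, hp⟩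

theorem extract {G : Type} [CommGroup G] (H : Subgroup G) {b : ℕ} (h : Dav (G ⧸ H) b) {ι : Type}
    (f : ι → G) (a : ℕ) : ∀ s : Finset ι, a * b ≤ s.card →
    ∃ T : Fin a → Finset ι, (∀ j, T j ⊆ s) ∧ (∀ j, (T j).Nonempty) ∧
      (∀ j j', j ≠ j' → Disjoint (T j) (T j')) ∧ ∀ j, ∏ i ∈ T j, f i ∈ H := by
  classical
  induction a with
  | zero =>
    intro s _
    exact ⟨fun j => j.elim0, fun j => j.elim0, fun j => j.elim0, fun j => j.elim0,
      fun j => j.elim0⟩
  | succ a ih =>
    intro s hs
    have hb : b ≤ s.card := le_trans (by nlinarith) hs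
    obtain ⟨t, hts, hne, hc, hp⟩ := h.small s (fun i => (f i : G ⧸ H)) hb
    have hmem : ∏ i ∈ t, f i ∈ H := by
      rw [← QuotientGroup.eq_one_iff, ← hp]
      exact map_prod (QuotientGroup.mk' H) f t
    have hcard : a * b ≤ (s \ t).card := by
      rw [card_sdiff_of_subset hts]
      have : (a + 1) * b = a * b + b := by ring
      omega
    obtain ⟨T, h1, h2, h3, h4⟩ := ih (s \ t) hcard
    refine ⟨Fin.cons t T, ?_, ?_, ?_, ?_⟩
    · intro j
      refine Fin.cases ?_ (fun j => ?_) j
      · exact hts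
      · exact (h1 j).trans sdiff_subset
    · intro j
      refine Fin.cases ?_ (fun j => ?_) j
      · exact hne
      · exact h2 j
    · intro j j'
      refine Fin.cases ?_ (fun j => ?_) j
      · refine Fin.cases ?_ (fun j' => ?_) j'
        · intro h; exact absurd rfl h
        · intro _
          simp only [Fin.cons_zero, Fin.cons_succ]
          exact Disjoint.mono_right (h1 j') disjoint_sdiff
      · refine Fin.cases ?_ (fun j' => ?_) j'
        · intro _
          simp only [Fin.cons_zero, Fin.cons_succ]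
          exact (Disjoint.mono_right (h1 j) disjoint_sdiff).symm
        · intro h
          simp only [Fin.cons_succ]
          exact h3 j j' (fun h' => h (by rw [h']))
    · intro j
      refine Fin.cases ?_ (fun j => ?_) j
      · exact hmem
      · exact h4 j

theorem Dav.ext {G : Type} [CommGroup G] (H : Subgroup G) {a b : ℕ} (ha : Dav H a)
    (hb : Dav (G ⧸ H) b) : Dav G (a * b) := by
  classical
  intro ι s f hs
  obtain ⟨T, h1, h2, h3, h4⟩ := extract H hb f a s hs
  obtain ⟨I, -, hI, hp⟩ := ha (Fin a) univ (fun j => ⟨∏ i ∈ T j, f i, h4 j⟩) (by simp)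
  refine ⟨I.biUnion T, ?_, ?_, ?_⟩
  · exact biUnion_subset.2 fun j _ => h1 j
  · obtain ⟨j, hj⟩ := hI
    obtain ⟨i, hi⟩ := h2 j
    exact ⟨i, mem_biUnion.2 ⟨j, hj, hi⟩⟩
  · rw [prod_biUnion (fun j _ j' _ hjj => h3 j j' hjj)]
    have h5 := congrArg (Subtype.val) hp
    rw [Subgroup.val_finsetProd] at h5
    exact h5

/-- vector spaces over `ZMod p`, by the theorem of Chevalley and Warning -/
theorem zero_sum_vec {p : ℕ} [Fact p.Prime] {V : Type} [AddCommGroup V] [Module (ZMod p) V]
    [Module.Finite (ZMod p) V] {ι : Type} (s : Finset ι) (f : ι → V)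
    (hs : Module.finrank (ZMod p) V * (p - 1) + 1 ≤ s.card) :
    ∃ t ⊆ s, t.Nonempty ∧ ∑ i ∈ t, f i = 0 := by
  classical
  have hp : p.Prime := Fact.out
  have hp1 : p - 1 ≠ 0 := by have := hp.two_le; omega
  let b : Module.Basis (Fin (Module.finrank (ZMod p) V)) (ZMod p) V := Module.finBasis (ZMod p) V
  let F : Fin (Module.finrank (ZMod p) V) → MvPolynomial {i // i ∈ s} (ZMod p) := fun j =>
    ∑ i : {i // i ∈ s}, MvPolynomial.C ((b.repr (f i.1)) j) * MvPolynomial.X i ^ (p - 1)
  have hdeg : ∀ j, (F j).totalDegree ≤ p - 1 := by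
    intro j
    refine (MvPolynomial.totalDegree_finsetSum _ _).trans (Finset.sup_le fun i _ => ?_)
    refine (MvPolynomial.totalDegree_mul _ _).trans ?_
    rw [MvPolynomial.totalDegree_C, zero_add]
    refine (MvPolynomial.totalDegree_pow _ _).trans ?_
    rw [MvPolynomial.totalDegree_X, mul_one]
  have hlt : (∑ j, (F j).totalDegree) < Fintype.card {i // i ∈ s} := by
    rw [Fintype.card_coe]
    calc ∑ j, (F j).totalDegree ≤ ∑ _j : Fin (Module.finrank (ZMod p) V), (p - 1) :=
          sum_le_sum fun j _ => hdeg j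
      _ = Module.finrank (ZMod p) V * (p - 1) := by simp
      _ < s.card := by omega
  have hdvd := char_dvd_card_solutions_of_fintype_sum_lt p hlt
  obtain ⟨x, hx, hx0⟩ : ∃ x : {i // i ∈ s} → ZMod p,
      (∀ j, MvPolynomial.eval x (F j) = 0) ∧ x ≠ 0 := by
    by_contra hcon
    push Not at hcon
    have hz : ∀ j, MvPolynomial.eval (0 : {i // i ∈ s} → ZMod p) (F j) = 0 := by
      intro j
      simp [F, hp1]
    have h1 : Fintype.card { x : {i // i ∈ s} → ZMod p // ∀ j, MvPolynomial.eval x (F j) = 0 } =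
        1 := by
      rw [Fintype.card_eq_one_iff]
      exact ⟨⟨0, hz⟩, fun y => Subtype.ext (hcon y.1 y.2)⟩
    have h2 : p ∣ 1 := by
      rw [← h1]
      convert hdvd
    have := Nat.le_of_dvd one_pos h2
    have := hp.two_le
    omega
  refine ⟨(univ.filter (fun i : {i // i ∈ s} => x i ≠ 0)).map (Function.Embedding.subtype _),
    ?_, ?_, ?_⟩
  · intro i hi
    rw [mem_map] at hi
    obtain ⟨j, -, rfl⟩ := hi
    exact j.2
  · obtain ⟨i, hi⟩ : ∃ i, x i ≠ 0 := by
      by_contra h
      push Not at h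
      exact hx0 (funext h)
    exact ⟨i.1, mem_map.2 ⟨i, mem_filter.2 ⟨mem_univ _, hi⟩, rfl⟩⟩
  · rw [sum_map]
    simp only [Function.Embedding.subtype_apply]
    apply b.repr.injective
    rw [map_sum, map_zero]
    ext j
    have h1 := hx j
    simp only [F, map_sum, map_mul, MvPolynomial.eval_C, map_pow, MvPolynomial.eval_X] at h1
    rw [Finsupp.finsetSum_apply, Finsupp.zero_apply]
    refine Eq.trans ?_ h1
    rw [sum_filter]
    refine sum_congr rfl fun i _ => ?_
    by_cases hxi : x i = 0
    · simp [hxi, hp1]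
    · rw [if_pos hxi, ZMod.pow_card_sub_one_eq_one hxi, mul_one]

theorem zero_sum_card {p r : ℕ} [Fact p.Prime] {V : Type} [AddCommGroup V] [Module (ZMod p) V]
    [Finite V] (hcard : Nat.card V = p ^ r) {ι : Type} (s : Finset ι) (f : ι → V)
    (hs : r * (p - 1) + 1 ≤ s.card) :
    ∃ t ⊆ s, t.Nonempty ∧ ∑ i ∈ t, f i = 0 := by
  have hp : p.Prime := Fact.out
  have hfin : Module.Finite (ZMod p) V := Module.Finite.of_finite
  have h1 := Module.natCard_eq_pow_finrank (K := ZMod p) (V := V)
  rw [Nat.card_zmod, hcard] at h1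
  have hfr : r = Module.finrank (ZMod p) V := Nat.pow_right_injective hp.two_le h1
  exact zero_sum_vec s f (by rw [← hfr]; exact hs)

/-- elementary abelian `p`-groups -/
theorem dav_elem {G : Type} [CommGroup G] [Finite G] {p r : ℕ} (hp : p.Prime)
    (hexp : ∀ g : G, g ^ p = 1) (hcard : Nat.card G = p ^ r) : Dav G (r * (p - 1) + 1) := by
  classical
  have hpf : Fact p.Prime := ⟨hp⟩
  let M : Module (ZMod p) (Additive G) := AddCommGroup.zmodModule (n := p) (by
    intro x
    have := hexp x.toMul
    apply_fun Additive.ofMul at this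
    simpa using this)
  have h2 : Nat.card (Additive G) = p ^ r := by
    rw [← hcard]
    exact Nat.card_congr Additive.toMul
  intro ι s f hs
  obtain ⟨t, h1, h2, h3⟩ := zero_sum_card (V := Additive G) h2 s (fun i => Additive.ofMul (f i)) hs
  refine ⟨t, h1, h2, ?_⟩
  have := congrArg Additive.toMul h3
  rw [toMul_sum] at this
  simpa using this

/-- a bound for the Davenport constant -/
theorem dav_bound {R : ℕ} (hR : 1 ≤ R) : ∀ (l : ℕ), 1 ≤ l → ∀ (G : Type) [CommGroup G] [Finite G],
    (∀ g : G, g ^ l = 1) → Nat.card G ≤ 2 ^ R →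
    Dav G (l * R ^ (ArithmeticFunction.cardFactors l)) := by
  intro l
  induction l using Nat.strong_induction_on with
  | _ l ih =>
    intro hl G _ _ hexp hcard
    rcases Nat.lt_or_ge 1 l with h1 | h1
    · obtain ⟨p, hp, μ, rfl⟩ := Nat.exists_prime_and_dvd h1.ne'
      have hμ : 1 ≤ μ := by
        rcases Nat.eq_zero_or_pos μ with h | h
        · simp [h] at hl
        · exact h
      have hlt : μ < p * μ := by
        have := hp.two_le
        nlinarith
      set H : Subgroup G := (powMonoidHom p : G →* G).range with hH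
      have hHexp : ∀ g : H, g ^ μ = 1 := by
        rintro ⟨g, x, rfl⟩
        apply Subtype.ext
        simp only [powMonoidHom_apply, SubmonoidClass.mk_pow, OneMemClass.coe_one]
        rw [← pow_mul]
        exact hexp x
      have hHcard : Nat.card H ≤ 2 ^ R := (Subgroup.card_le_card_group H).trans hcard
      have hd1 := ih μ hlt hμ H hHexp hHcard
      have hQexp : ∀ g : G ⧸ H, g ^ p = 1 := by
        intro g
        obtain ⟨x, rfl⟩ := QuotientGroup.mk_surjective g
        rw [← QuotientGroup.mk_pow, QuotientGroup.eq_one_iff]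
        exact ⟨x, rfl⟩
      have hpf : Fact p.Prime := ⟨hp⟩
      have hpg : IsPGroup p (G ⧸ H) := fun g => ⟨1, by rw [pow_one]; exact hQexp g⟩
      obtain ⟨r, hr⟩ := IsPGroup.iff_card.1 hpg
      have hrR : r ≤ R := by
        have h2 : Nat.card (G ⧸ H) ≤ 2 ^ R := by
          refine le_trans ?_ hcard
          exact Nat.card_le_card_of_surjective _ QuotientGroup.mk_surjective
        rw [hr] at h2
        have h3 : 2 ^ r ≤ 2 ^ R := (Nat.pow_le_pow_left hp.two_le r).trans h2
        exact (Nat.pow_le_pow_iff_right (by norm_num)).1 h3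
      have hd2 := dav_elem hp hQexp hr
      refine (Dav.ext H hd1 hd2).mono ?_
      have hΩ : ArithmeticFunction.cardFactors (p * μ) = ArithmeticFunction.cardFactors μ + 1 := by
        rw [ArithmeticFunction.cardFactors_mul hp.ne_zero (by omega),
          ArithmeticFunction.cardFactors_apply_prime hp, add_comm]
      rw [hΩ, pow_succ]
      have h4 : r * (p - 1) + 1 ≤ R * p := by
        obtain ⟨q, rfl⟩ : ∃ q, p = q + 1 := ⟨p - 1, by have := hp.two_le; omega⟩
        rw [Nat.add_sub_cancel]
        nlinarith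
      calc μ * R ^ ArithmeticFunction.cardFactors μ * (r * (p - 1) + 1)
          ≤ μ * R ^ ArithmeticFunction.cardFactors μ * (R * p) := Nat.mul_le_mul_left _ h4
        _ = p * μ * (R ^ ArithmeticFunction.cardFactors μ * R) := by ring
    · have hl1 : l = 1 := le_antisymm h1 hl
      subst hl1
      intro ι s f hs
      simp only [ArithmeticFunction.cardFactors_one, pow_zero, mul_one] at hs
      obtain ⟨i, hi⟩ := card_pos.1 hs
      refine ⟨{i}, singleton_subset_iff.2 hi, singleton_nonempty _, ?_⟩
      rw [prod_singleton]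
      simpa using hexp (f i)

end Pool.Agent.R495
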