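import Mathlib
import Pool.Agent.R495.Dav

/-!
The construction of a Carmichael number from many primes `p = d k + 1`, `d` a divisor of a squarefree
number `L`.
-/

set_option autoImplicit false

namespace Pool.Agent.R495

open Finset

/-- the exponent of the group of units modulo a squarefree number -/
theorem units_exp {W : Finset ℕ} (hW : ∀ q ∈ W, q.Prime) {lam L : ℕ} (hL : L = ∏ q ∈ W, q)
    (hql : ∀ q ∈ W, q - 1 ∣ lam) (g : (ZMod L)ˣ) : g ^ lam = 1 := by
  classical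
  have hL0 : L ≠ 0 := by
    rw [hL]
    exact prod_ne_zero_iff.2 fun q hq => (hW q hq).ne_zero
  have : NeZero L := ⟨hL0⟩
  apply Units.ext
  rw [Units.val_pow_eq_pow_val, Units.val_one]
  set a : ℕ := (g : ZMod L).val with ha
  have hcop : Nat.Coprime a L := ZMod.val_coe_unit_coprime g
  have hg : (g : ZMod L) = ((a : ℤ) : ZMod L) := by
    rw [Int.cast_natCast, ha, ZMod.natCast_zmod_val]
  rw [hg, ← Int.cast_pow, ← Int.cast_one, ZMod.intCast_eq_intCast_iff_dvd_sub]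
  have hneg : (1 : ℤ) - (a : ℤ) ^ lam = -((a : ℤ) ^ lam - 1) := by ring
  rw [hneg, dvd_neg, hL, Nat.cast_prod]
  apply Finset.prod_dvd_of_coprime
  · intro p hp q hq hpq
    simp only [Function.onFun]
    exact Nat.isCoprime_iff_coprime.2 ((Nat.coprime_primes (hW p hp) (hW q hq)).2 hpq)
  · intro q hq
    have hqp := hW q hq
    have hqL : q ∣ L := by
      rw [hL]
      exact dvd_prod_of_mem (fun q => q) hq
    have h1 : Nat.Coprime a q := Nat.Coprime.coprime_dvd_right hqL hcop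
    have h2 := Nat.ModEq.pow_totient h1
    rw [Nat.totient_prime hqp] at h2
    obtain ⟨t, ht⟩ := hql q hq
    have h3 : a ^ lam ≡ 1 [MOD q] := by
      rw [ht, pow_mul]
      simpa using h2.pow t
    have h4 := h3.symm.dvd
    push_cast at h4
    exact h4

theorem core {k z lam R : ℕ} {T : Finset ℕ} (hT : ∀ q ∈ T, q.Prime ∧ q ≤ z) (hk : 1 ≤ k)
    (hlam : 1 ≤ lam) (hql : ∀ q ∈ T, q - 1 ∣ lam) (hR : 1 ≤ R)
    (hL : ∏ q ∈ T.filter (fun q => ¬ q ∣ k), q ≤ 2 ^ R)
    (J : Finset ℕ) (F : Finset (Finset ℕ)) (hF : ∀ I ∈ F, I ⊆ T ∧ I.filter (fun q => q ∣ k) = J ∧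
      ((∏ q ∈ I, q) * k + 1).Prime ∧ z < (∏ q ∈ I, q) * k + 1 ∧
      ¬ T.filter (fun q => ¬ q ∣ k) ⊆ I)
    (hcard : lam * R ^ ArithmeticFunction.cardFactors lam ≤ F.card) :
    ∃ S ⊆ F, S.Nonempty ∧ S.card ≤ lam * R ^ ArithmeticFunction.cardFactors lam ∧
      ¬ (∏ I ∈ S, ((∏ q ∈ I, q) * k + 1)).Prime ∧
      Squarefree (∏ I ∈ S, ((∏ q ∈ I, q) * k + 1)) ∧
      ∀ p : ℕ, p.Prime → p ∣ ∏ I ∈ S, ((∏ q ∈ I, q) * k + 1) →
        (∃ I ∈ S, p = (∏ q ∈ I, q) * k + 1) ∧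
          p - 1 ∣ (∏ I ∈ S, ((∏ q ∈ I, q) * k + 1)) - 1 := by
  classical
  set W := T.filter (fun q => ¬ q ∣ k) with hW
  set L := ∏ q ∈ W, q with hLdef
  have hWT : W ⊆ T := filter_subset _ _
  have hWp : ∀ q ∈ W, q.Prime := fun q hq => (hT q (hWT hq)).1
  have hL0 : L ≠ 0 := prod_ne_zero_iff.2 fun q hq => (hWp q hq).ne_zero
  have : NeZero L := ⟨hL0⟩
  set P : Finset ℕ → ℕ := fun I => (∏ q ∈ I, q) * k + 1 with hP
  have hcop : ∀ I ∈ F, (P I).Coprime L := by
    intro I hI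
    obtain ⟨h1, h2, h3, h4, h5⟩ := hF I hI
    rw [hLdef, Nat.coprime_prod_right_iff]
    intro q hq
    refine (Nat.coprime_primes h3 (hWp q hq)).2 ?_
    have := (hT q (hWT hq)).2
    intro h6
    omega
  set f : Finset ℕ → (ZMod L)ˣ := fun I =>
    if h : (P I).Coprime L then ZMod.unitOfCoprime (P I) h else 1 with hf
  have hGcard : Nat.card (ZMod L)ˣ ≤ 2 ^ R := by
    rw [Nat.card_eq_fintype_card, ZMod.card_units_eq_totient]
    exact (Nat.totient_le L).trans hL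
  have hexp : ∀ g : (ZMod L)ˣ, g ^ lam = 1 :=
    units_exp hWp hLdef (fun q hq => hql q (hWT hq))
  have hdav := dav_bound hR lam hlam (ZMod L)ˣ hexp hGcard
  obtain ⟨S, hSF, hSne, hSc, hprod⟩ := hdav.small F f hcard
  set n := ∏ I ∈ S, P I with hn
  have hFne : F.Nonempty := hSne.mono hSF
  have hJ : ∀ q ∈ J, q.Prime ∧ q ∣ k := by
    obtain ⟨I, hI⟩ := hFne
    intro q hq
    rw [← (hF I hI).2.1, mem_filter] at hq
    exact ⟨(hT q ((hF I hI).1 hq.1)).1, hq.2⟩
  -- modulo `L`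
  have hnL : ((n : ℕ) : ZMod L) = 1 := by
    rw [hn, Nat.cast_prod]
    have h1 : ∀ I ∈ S, ((P I : ℕ) : ZMod L) = ((f I : (ZMod L)ˣ) : ZMod L) := by
      intro I hI
      rw [hf]
      simp only [dif_pos (hcop I (hSF hI)), ZMod.coe_unitOfCoprime]
    rw [prod_congr rfl h1, ← Units.coe_prod, hprod, Units.val_one]
  -- modulo `k'`
  set a := ∏ q ∈ J, q with ha
  have hb : ∀ I ∈ F, P I = a * k * (∏ q ∈ I.filter (fun q => ¬ q ∣ k), q) + 1 := by
    intro I hI
    rw [hP]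
    simp only
    rw [← prod_filter_mul_prod_filter_not I (fun q => q ∣ k), (hF I hI).2.1]
    ring
  have hnk : ((n : ℕ) : ZMod (a * k)) = 1 := by
    rw [hn, Nat.cast_prod]
    apply prod_eq_one
    intro I hI
    rw [hb I (hSF hI), Nat.cast_add, Nat.cast_mul, ZMod.natCast_self, zero_mul, zero_add,
      Nat.cast_one]
  have hpos : ∀ I ∈ S, 0 < P I := fun I _ => by rw [hP]; positivity
  have hn0 : 0 < n := prod_pos hpos
  have hdL : L ∣ n - 1 := by
    rw [← Nat.modEq_iff_dvd' hn0, ← ZMod.natCast_eq_natCast_iff, hnL, Nat.cast_one]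
  have hdk : a * k ∣ n - 1 := by
    rw [← Nat.modEq_iff_dvd' hn0, ← ZMod.natCast_eq_natCast_iff, hnk, Nat.cast_one]
  have hcopk : Nat.Coprime (a * k) L := by
    rw [hLdef, Nat.coprime_prod_right_iff]
    intro q hq
    have hqp := hWp q hq
    have hqk : ¬ q ∣ k := by
      rw [hW, mem_filter] at hq
      exact hq.2
    rw [Nat.coprime_comm, Nat.Prime.coprime_iff_not_dvd hqp]
    intro h
    rcases (Nat.Prime.dvd_mul hqp).1 h with h1 | h1
    · rw [ha, Prime.dvd_finsetProd_iff hqp.prime] at h1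
      obtain ⟨r, hr, hqr⟩ := h1
      have := (Nat.prime_dvd_prime_iff_eq hqp (hJ r hr).1).1 hqr
      rw [this] at hqk
      exact hqk (hJ r hr).2
    · exact hqk h1
  have hdkL : a * k * L ∣ n - 1 := hcopk.mul_dvd_of_dvd_of_dvd hdk hdL
  have hbL : ∀ I ∈ F, (∏ q ∈ I.filter (fun q => ¬ q ∣ k), q) ∣ L := by
    intro I hI
    apply prod_dvd_prod_of_subset
    rw [hW]
    exact filter_subset_filter _ (hF I hI).1
  have hPd : ∀ I ∈ S, P I - 1 ∣ n - 1 := by
    intro I hI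
    rw [hb I (hSF hI), Nat.add_sub_cancel]
    exact (Nat.mul_dvd_mul_left _ (hbL I (hSF hI))).trans hdkL
  have hPprime : ∀ I ∈ S, (P I).Prime := fun I hI => (hF I (hSF hI)).2.2.1
  have hprimes : ∀ p : ℕ, p.Prime → p ∣ n → ∃ I ∈ S, p = P I := by
    intro p hp hpn
    rw [hn, Prime.dvd_finsetProd_iff hp.prime] at hpn
    obtain ⟨I, hI, hpI⟩ := hpn
    exact ⟨I, hI, (Nat.prime_dvd_prime_iff_eq hp (hPprime I hI)).1 hpI⟩
  refine ⟨S, hSF, hSne, hSc, ?_, ?_, ?_⟩
  · intro hnp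
    obtain ⟨I, hI⟩ := hSne
    have h1 : P I ∣ n := dvd_prod_of_mem P hI
    have h2 : P I = n := (Nat.prime_dvd_prime_iff_eq (hPprime I hI) hnp).1 h1
    rw [← h2, hb I (hSF hI), Nat.add_sub_cancel] at hdkL
    have ha0 : 0 < a * k := by
      have : 0 < a := prod_pos fun q hq => (hJ q hq).1.pos
      positivity
    have h3 := Nat.dvd_of_mul_dvd_mul_left ha0 hdkL
    apply (hF I (hSF hI)).2.2.2.2
    intro q hq
    have h4 : q ∣ ∏ q ∈ I.filter (fun q => ¬ q ∣ k), q :=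
      (dvd_prod_of_mem (fun q => q) hq).trans h3
    rw [Prime.dvd_finsetProd_iff (hWp q hq).prime] at h4
    obtain ⟨r, hr, hqr⟩ := h4
    rw [mem_filter] at hr
    have h5 : q = r := (Nat.prime_dvd_prime_iff_eq (hWp q hq)
      (hT r ((hF I (hSF hI)).1 hr.1)).1).1 hqr
    rw [h5]
    exact hr.1
  · apply Finset.squarefree_prod_of_pairwise_isCoprime
    · intro I hI I' hI' hII
      simp only [Function.onFun]
      rw [← Nat.coprime_iff_isRelPrime, Nat.coprime_primes (hPprime I hI) (hPprime I' hI')]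
      intro h
      apply hII
      have h1 : ∏ q ∈ I, q = ∏ q ∈ I', q := by
        rw [hP] at h
        simp only at h
        exact Nat.eq_of_mul_eq_mul_right hk (by omega)
      have h2 := Nat.primeFactors_prod (s := I)
        (fun q hq => (hT q ((hF I (hSF hI)).1 hq)).1)
      have h3 := Nat.primeFactors_prod (s := I')
        (fun q hq => (hT q ((hF I' (hSF hI')).1 hq)).1)
      rw [← h2, ← h3, h1]
    · intro I hI
      exact (hPprime I hI).prime.squarefree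
  · intro p hp hpn
    obtain ⟨I, hI, hpI⟩ := hprimes p hp hpn
    exact ⟨⟨I, hI, hpI⟩, by rw [hpI]; exact hPd I hI⟩

end Pool.Agent.R495
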