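import Mathlib

/-!
Pigeonhole: a multiplier `k` such that `d k + 1` is prime for many `d` of a given family of moduli.
-/

set_option autoImplicit false

namespace Pool.Agent.R495

open Finset

theorem one_modulus {z M d : ℕ} {c : ℝ} (hd : 0 < d) (hz : 1 ≤ z) (hc : 0 ≤ c)
    (h : c / (d.totient : ℝ) ≤
      ∑ p ∈ (Ioc z M).filter (fun p => p.Prime ∧ p ≡ 1 [MOD d]), (1 : ℝ) / p) :
    c ≤ ∑ k ∈ Icc 1 M, if (d * k + 1).Prime ∧ z < d * k + 1 then (1 : ℝ) / k else 0 := by
  classical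
  have hd0 : (0 : ℝ) < d := by exact_mod_cast hd
  have hphi : (0 : ℝ) < d.totient := by exact_mod_cast Nat.totient_pos.2 hd
  have hphid : (d.totient : ℝ) ≤ d := by exact_mod_cast Nat.totient_le d
  have h1 : c / (d : ℝ) ≤ c / (d.totient : ℝ) := div_le_div_of_nonneg_left hc hphi hphid
  have h2 : ∑ p ∈ (Ioc z M).filter (fun p => p.Prime ∧ p ≡ 1 [MOD d]), (1 : ℝ) / p ≤
      (1 / (d : ℝ)) * ∑ k ∈ (Icc 1 M).filter (fun k => (d * k + 1).Prime ∧ z < d * k + 1),
        (1 : ℝ) / k := by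
    rw [mul_sum]
    have key : ∀ p ∈ (Ioc z M).filter (fun p => p.Prime ∧ p ≡ 1 [MOD d]),
        d * ((p - 1) / d) + 1 = p ∧ 1 ≤ (p - 1) / d ∧ (p - 1) / d ≤ M := by
      intro p hp
      rw [mem_filter, mem_Ioc] at hp
      obtain ⟨⟨h3, h4⟩, h5, h6⟩ := hp
      have hp1 : 1 ≤ p := h5.one_lt.le
      have h7 : d ∣ p - 1 := (Nat.modEq_iff_dvd' hp1).mp h6.symm
      have h8 : d * ((p - 1) / d) = p - 1 := Nat.mul_div_cancel' h7
      have h9 : 0 < (p - 1) / d := by
        rcases Nat.eq_zero_or_pos ((p - 1) / d) with h | h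
        · rw [h, mul_zero] at h8
          have := h5.one_lt
          omega
        · exact h
      refine ⟨by omega, h9, ?_⟩
      calc (p - 1) / d ≤ p - 1 := Nat.div_le_self _ _
        _ ≤ M := by omega
    have hinj : Set.InjOn (fun p : ℕ => (p - 1) / d)
        ((Ioc z M).filter (fun p => p.Prime ∧ p ≡ 1 [MOD d]) : Finset ℕ) := by
      intro p hp p' hp' hpp
      have h3 := (key p hp).1
      have h4 := (key p' hp').1
      have h5 : (p - 1) / d = (p' - 1) / d := hpp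
      rw [h5] at h3
      omega
    calc ∑ p ∈ (Ioc z M).filter (fun p => p.Prime ∧ p ≡ 1 [MOD d]), (1 : ℝ) / p
        ≤ ∑ p ∈ (Ioc z M).filter (fun p => p.Prime ∧ p ≡ 1 [MOD d]),
            1 / (d : ℝ) * (1 / (((p - 1) / d : ℕ) : ℝ)) := by
          refine sum_le_sum fun p hp => ?_
          obtain ⟨h3, h4, h5⟩ := key p hp
          have h6 : (d : ℝ) * (((p - 1) / d : ℕ) : ℝ) ≤ p := by
            have : d * ((p - 1) / d) ≤ p := by omega
            exact_mod_cast this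
          have h7 : (0 : ℝ) < (((p - 1) / d : ℕ) : ℝ) := by exact_mod_cast h4
          rw [one_div_mul_one_div]
          exact one_div_le_one_div_of_le (by positivity) h6
      _ = ∑ k ∈ ((Ioc z M).filter (fun p => p.Prime ∧ p ≡ 1 [MOD d])).image
            (fun p => (p - 1) / d), 1 / (d : ℝ) * (1 / (k : ℝ)) := by
          rw [sum_image hinj]
      _ ≤ _ := by
          refine sum_le_sum_of_subset_of_nonneg ?_ (fun k _ _ => by positivity)
          intro k hk
          rw [mem_image] at hk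
          obtain ⟨p, hp, rfl⟩ := hk
          obtain ⟨h3, h4, h5⟩ := key p hp
          rw [mem_filter, mem_Ioc] at hp
          rw [mem_filter, mem_Icc]
          refine ⟨⟨h4, h5⟩, ?_, ?_⟩
          · rw [h3]; exact hp.2.1
          · rw [h3]; exact hp.1.1
  have h3 : c / d ≤ (1 / (d : ℝ)) *
      ∑ k ∈ (Icc 1 M).filter (fun k => (d * k + 1).Prime ∧ z < d * k + 1), (1 : ℝ) / k :=
    h1.trans (h.trans h2)
  rw [sum_filter] at h3
  have h4 : c / (d : ℝ) = (1 / (d : ℝ)) * c := by ring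
  rw [h4] at h3
  exact le_of_mul_le_mul_left h3 (by positivity)

theorem find_k {z M : ℕ} {c : ℝ} {ι : Type} (A : Finset ι) (d : ι → ℕ) (hd : ∀ I ∈ A, 0 < d I)
    (hz : 1 ≤ z) (hM : 1 ≤ M) (hc : 0 ≤ c)
    (h : ∀ I ∈ A, c / ((d I).totient : ℝ) ≤
      ∑ p ∈ (Ioc z M).filter (fun p => p.Prime ∧ p ≡ 1 [MOD d I]), (1 : ℝ) / p) :
    ∃ k : ℕ, 1 ≤ k ∧ k ≤ M ∧ c * A.card ≤ (1 + Real.log M) *
      ((A.filter (fun I => (d I * k + 1).Prime ∧ z < d I * k + 1)).card : ℝ) := by
  classical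
  by_contra hcon
  push Not at hcon
  have hlog : 0 ≤ Real.log M := Real.log_natCast_nonneg M
  have h1 : c * A.card ≤ ∑ k ∈ Icc 1 M,
      ((A.filter (fun I => (d I * k + 1).Prime ∧ z < d I * k + 1)).card : ℝ) * (1 / (k : ℝ)) := by
    calc c * A.card = ∑ _I ∈ A, c := by rw [sum_const, nsmul_eq_mul, mul_comm]
      _ ≤ ∑ I ∈ A, ∑ k ∈ Icc 1 M,
          if (d I * k + 1).Prime ∧ z < d I * k + 1 then (1 : ℝ) / k else 0 :=
        sum_le_sum fun I hI => one_modulus (hd I hI) hz hc (h I hI)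
      _ = ∑ k ∈ Icc 1 M, ∑ I ∈ A,
          if (d I * k + 1).Prime ∧ z < d I * k + 1 then (1 : ℝ) / k else 0 := sum_comm
      _ = _ := by
        refine sum_congr rfl fun k _ => ?_
        rw [← sum_filter, sum_const, nsmul_eq_mul]
  have h2 : ∑ k ∈ Icc 1 M, (1 : ℝ) / k ≤ 1 + Real.log M := by
    have h3 := harmonic_le_one_add_log M
    rw [harmonic_eq_sum_Icc] at h3
    push_cast at h3
    simpa only [one_div] using h3
  have h3 : ∑ k ∈ Icc 1 M,
      ((A.filter (fun I => (d I * k + 1).Prime ∧ z < d I * k + 1)).card : ℝ) * (1 / (k : ℝ)) <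
      ∑ k ∈ Icc 1 M, (c * A.card / (1 + Real.log M)) * (1 / (k : ℝ)) := by
    apply sum_lt_sum_of_nonempty ⟨1, mem_Icc.2 ⟨le_rfl, hM⟩⟩
    intro k hk
    rw [mem_Icc] at hk
    have hk0 : (0 : ℝ) < k := by exact_mod_cast hk.1
    have h4 := hcon k hk.1 hk.2
    apply mul_lt_mul_of_pos_right _ (by positivity)
    rw [lt_div_iff₀ (by linarith), mul_comm]
    exact h4
  rw [← mul_sum] at h3
  have h4 : c * A.card / (1 + Real.log M) * ∑ k ∈ Icc 1 M, (1 : ℝ) / k ≤ c * A.card := by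
    have h5 : 0 ≤ c * A.card / (1 + Real.log M) := by positivity
    calc c * A.card / (1 + Real.log M) * ∑ k ∈ Icc 1 M, (1 : ℝ) / k
        ≤ c * A.card / (1 + Real.log M) * (1 + Real.log M) := by gcongr
      _ = c * A.card := by
        have : (1 + Real.log M) ≠ 0 := by linarith
        field_simp
  linarith

end Pool.Agent.R495
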