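import Mathlib
import Pool.Agent.W440.SA.ROM

/-!
Many primes `q ≤ Y` such that all prime factors of `q - 1` are at most `Y ^ (1 - 1 / N)`.
-/

set_option autoImplicit false

namespace Pool.Agent.R495

open Finset Filter

/-- many primes with smooth predecessors, `Y = 2 ^ (4 N w)` -/
theorem exists_T : ∃ N : ℕ, 4 ≤ N ∧ ∃ w0 : ℕ, ∀ w : ℕ, w0 ≤ w → ∃ T : Finset ℕ,
    (∀ q ∈ T, q.Prime ∧ q ≤ 2 ^ (4 * N * w) ∧ 2 ^ (2 * N * w) < q ∧
      ∀ r : ℕ, r.Prime → r ∣ q - 1 → r ≤ 2 ^ ((4 * N - 4) * w)) ∧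
    2 ^ (4 * N * w) ≤ 8 * N * w * T.card := by
  classical
  obtain ⟨C, hC, hROM⟩ := Pool.Agent.W440.SA.ROM.main
  obtain ⟨N1, hN1⟩ := exists_nat_ge (16 * C)
  set N : ℕ := N1 + 4 with hN
  have hN4 : 4 ≤ N := by omega
  have hN0 : (0 : ℝ) < N := by exact_mod_cast (by omega : 0 < N)
  have hCN : C * (1 / (N : ℝ)) ≤ 1 / 16 := by
    rw [mul_one_div, div_le_div_iff₀ hN0 (by norm_num)]
    have : (N1 : ℝ) ≤ N := by exact_mod_cast (by omega : N1 ≤ N)
    linarith
  have hη4 : 1 / (N : ℝ) ≤ 1 / 4 := by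
    apply one_div_le_one_div_of_le (by norm_num)
    exact_mod_cast hN4
  obtain ⟨Y0, hY0⟩ := hROM (1 / (N : ℝ)) (by positivity) hη4
  -- asymptotic inequalities
  obtain ⟨Y1, hY1⟩ : ∃ Y1 : ℕ, ∀ Y : ℕ, Y1 ≤ Y → Real.log (Y + 1) ≤ (1 / 32) * Y ∧
      Real.sqrt Y * Real.log Y ≤ (1 / 32) * Y ∧ 1 ≤ Real.log Y := by
    have h1 : ∀ᶠ x : ℝ in atTop, Real.log (x + 1) ≤ (1 / 32) * x := by
      have h2 : (fun x : ℝ => Real.log (x + 1)) =o[atTop] (fun x : ℝ => x + 1) := by
        have := Real.isLittleO_log_id_atTop.comp_tendsto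
          (tendsto_atTop_add_const_right atTop (1 : ℝ) tendsto_id)
        simpa [Function.comp_def] using this
      have h3 := h2.bound (by norm_num : (0 : ℝ) < 1 / 64)
      filter_upwards [h3, eventually_ge_atTop (1 : ℝ)] with x hx hx1
      have h4 : Real.log (x + 1) ≤ 1 / 64 * (x + 1) := by
        refine (le_abs_self _).trans ?_
        rw [Real.norm_eq_abs, Real.norm_eq_abs, abs_of_pos (by linarith : (0:ℝ) < x + 1)] at hx
        exact hx
      linarith
    have h2 : ∀ᶠ x : ℝ in atTop, Real.sqrt x * Real.log x ≤ (1 / 32) * x := by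
      have h3 : (fun x : ℝ => Real.log x) =o[atTop] (fun x : ℝ => x ^ (1 / 2 : ℝ)) :=
        isLittleO_log_rpow_atTop (by norm_num)
      have h4 := h3.bound (by norm_num : (0 : ℝ) < 1 / 32)
      filter_upwards [h4, eventually_ge_atTop (1 : ℝ)] with x hx hx1
      have h5 : Real.log x ≤ 1 / 32 * Real.sqrt x := by
        rw [Real.sqrt_eq_rpow]
        refine (le_abs_self _).trans ?_
        rw [Real.norm_eq_abs, Real.norm_eq_abs,
          abs_of_pos (Real.rpow_pos_of_pos (by linarith) _)] at hx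
        exact hx
      calc Real.sqrt x * Real.log x ≤ Real.sqrt x * (1 / 32 * Real.sqrt x) := by
            gcongr
        _ = 1 / 32 * (Real.sqrt x * Real.sqrt x) := by ring
        _ = 1 / 32 * x := by rw [Real.mul_self_sqrt (by linarith)]
    have h3 : ∀ᶠ x : ℝ in atTop, 1 ≤ Real.log x :=
      Real.tendsto_log_atTop.eventually_ge_atTop 1
    obtain ⟨Y1, h4⟩ := eventually_atTop.1 (tendsto_natCast_atTop_atTop.eventually
      (h1.and (h2.and h3)))
    exact ⟨Y1, fun Y hY => h4 Y hY⟩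
  refine ⟨N, hN4, Y0 + Y1 + 1, fun w hw => ?_⟩
  set Y : ℕ := 2 ^ (4 * N * w) with hY
  have hwY : w < Y := by
    calc w < 2 ^ w := Nat.lt_two_pow_self
      _ ≤ 2 ^ (4 * N * w) := Nat.pow_le_pow_right (by norm_num) (by nlinarith)
  have hYY0 : Y0 ≤ Y := by omega
  have hYY1 : Y1 ≤ Y := by omega
  obtain ⟨hl1, hl2, hl3⟩ := hY1 Y hYY1
  have hlogpos : (0 : ℝ) < Real.log Y := by linarith
  have hY0' : (0 : ℝ) < (Y : ℝ) := by rw [hY]; positivity
  -- the smoothness level
  have hpow : (Y : ℝ) ^ (1 - 1 / (N : ℝ)) = ((2 ^ ((4 * N - 4) * w) : ℕ) : ℝ) := by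
    have h1 : (Y : ℝ) = (2 : ℝ) ^ ((4 * N * w : ℕ) : ℝ) := by
      rw [Real.rpow_natCast, hY]; push_cast; ring
    rw [h1, ← Real.rpow_mul (by norm_num)]
    have h2 : ((4 * N * w : ℕ) : ℝ) * (1 - 1 / (N : ℝ)) = (((4 * N - 4) * w : ℕ) : ℝ) := by
      have h3 : ((4 * N - 4 : ℕ) : ℝ) = 4 * N - 4 := by
        rw [Nat.cast_sub (by omega)]; push_cast; ring
      push_cast [h3]
      field_simp
    rw [h2, Real.rpow_natCast]
    push_cast
    ring
  have hfl : ⌊(Y : ℝ) ^ (1 - 1 / (N : ℝ))⌋₊ = 2 ^ ((4 * N - 4) * w) := by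
    rw [hpow, Nat.floor_natCast]
  set A : Finset ℕ := (Icc 1 Y).filter Nat.Prime with hA
  set B : Finset ℕ := Pool.Agent.W659.SA.RoughM (1 - 1 / (N : ℝ)) Y with hB
  set D : Finset ℕ := range (2 ^ (2 * N * w) + 1) with hD
  refine ⟨(A \ B) \ D, ?_, ?_⟩
  · intro q hq
    rw [Finset.mem_sdiff, Finset.mem_sdiff, hA, mem_filter, mem_Icc, hD, mem_range] at hq
    obtain ⟨⟨⟨⟨h1, h2⟩, h3⟩, h4⟩, h5⟩ := hq
    refine ⟨h3, h2, by omega, fun r hr hrq => ?_⟩
    by_contra hcon
    apply h4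
    rw [hB]
    unfold Pool.Agent.W659.SA.RoughM
    rw [mem_filter, mem_Icc]
    refine ⟨⟨h1, h2⟩, h3, r, hr, hrq, ?_⟩
    rw [hfl]
    omega
  · have hAcard : (Nat.primeCounting Y : ℝ) = A.card := by
      rw [Nat.primeCounting, Nat.primeCounting', Nat.count_eq_card_filter_range]
      congr 2
      rw [hA]
      ext q
      simp only [mem_filter, mem_range, mem_Icc]
      constructor
      · rintro ⟨h1, h2⟩
        exact ⟨⟨h2.one_lt.le, by omega⟩, h2⟩
      · rintro ⟨⟨h1, h2⟩, h3⟩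
        exact ⟨by omega, h3⟩
    have hpi : (Y : ℝ) * Real.log 2 - Real.log (Y + 1) ≤ A.card * Real.log Y := by
      have h1 := Chebyshev.psi_ge Y
      have h2 := Chebyshev.psi_le_primeCounting_mul_log Y
      rw [hAcard] at h2
      exact h1.trans h2
    have hBc : (B.card : ℝ) * Real.log Y ≤ 1 / 16 * Y := by
      have h1 := hY0 Y hYY0
      have h2 : (B.card : ℝ) ≤ 1 / 16 * (Y / Real.log Y) := by
        refine h1.trans ?_
        gcongr
      calc (B.card : ℝ) * Real.log Y ≤ 1 / 16 * (Y / Real.log Y) * Real.log Y := by gcongr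
        _ = 1 / 16 * Y := by field_simp
    have hsqrt : Real.sqrt Y = ((2 ^ (2 * N * w) : ℕ) : ℝ) := by
      rw [Real.sqrt_eq_iff_mul_self_eq (by positivity) (by positivity), hY]
      push_cast
      rw [← pow_add]
      congr 1
      ring
    have hDc : (D.card : ℝ) * Real.log Y ≤ 1 / 16 * Y := by
      have h1 : (D.card : ℝ) ≤ 2 * Real.sqrt Y := by
        rw [hD, card_range, hsqrt]
        push_cast
        have : (1 : ℝ) ≤ 2 ^ (2 * N * w) := one_le_pow₀ (by norm_num)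
        linarith
      calc (D.card : ℝ) * Real.log Y ≤ 2 * Real.sqrt Y * Real.log Y := by gcongr
        _ = 2 * (Real.sqrt Y * Real.log Y) := by ring
        _ ≤ 2 * (1 / 32 * Y) := by gcongr
        _ = 1 / 16 * Y := by ring
    have hcard : (A.card : ℝ) ≤ (((A \ B) \ D).card : ℝ) + B.card + D.card := by
      have h1 : A.card ≤ (A \ B).card + B.card := card_le_card_sdiff_add_card
      have h2 : (A \ B).card ≤ ((A \ B) \ D).card + D.card :=
        card_le_card_sdiff_add_card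
      have h3 : A.card ≤ ((A \ B) \ D).card + B.card + D.card := by omega
      exact_mod_cast h3
    have hlog2 : (0.69 : ℝ) < Real.log 2 := by
      have := Real.log_two_gt_d9
      linarith
    have hkey : 1 / 2 * (Y : ℝ) ≤ (((A \ B) \ D).card : ℝ) * Real.log Y := by
      have h1 : (A.card : ℝ) * Real.log Y ≤
          ((((A \ B) \ D).card : ℝ) + B.card + D.card) * Real.log Y := by gcongr
      have h2 : 0.69 * (Y : ℝ) ≤ Y * Real.log 2 := by nlinarith
      nlinarith
    have hlogY : Real.log Y ≤ 4 * N * w := by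
      rw [hY]
      push_cast
      rw [Real.log_pow]
      push_cast
      have : Real.log 2 ≤ 1 := by
        have := Real.log_two_lt_d9
        linarith
      have h3 : (0 : ℝ) ≤ 4 * N * w := by positivity
      nlinarith
    have hfin : (Y : ℝ) ≤ 8 * N * w * (((A \ B) \ D).card : ℝ) := by
      have h3 : (((A \ B) \ D).card : ℝ) * Real.log Y ≤ (((A \ B) \ D).card : ℝ) * (4 * N * w) := by
        gcongr
      nlinarith
    exact_mod_cast hfin

end Pool.Agent.R495
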