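import Mathlib
import Pool.Agent.R495.Car
import Pool.Agent.R495.Pig
import Pool.Agent.R495.Sm
import Pool.Agent.Y835.SC.Page

/-!
Carmichael numbers all of whose prime factors are large compared with their number
(the construction of Alford, Granville and Pomerance).
-/

set_option autoImplicit false

namespace Pool.Agent.R495

open Finset Filter

theorem poly_le (A : ℕ) : ∃ w1 : ℕ, ∀ w : ℕ, w1 ≤ w → A * w ^ 3 ≤ 2 ^ w := by
  have h := tendsto_pow_const_div_const_pow_of_one_lt 3 (by norm_num : (1 : ℝ) < 2)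
  have h1 := (h.eventually_lt_const (by positivity : (0 : ℝ) < 1 / (A + 1)))
  obtain ⟨w1, hw1⟩ := eventually_atTop.1 h1
  refine ⟨w1, fun w hw => ?_⟩
  have h2 := hw1 w hw
  rw [div_lt_div_iff₀ (by positivity) (by positivity)] at h2
  have h3 : (A : ℝ) * (w : ℝ) ^ 3 ≤ (2 : ℝ) ^ w := by
    have : (0 : ℝ) ≤ (w : ℝ) ^ 3 := by positivity
    nlinarith
  exact_mod_cast h3

theorem two_pow_cardFactors_le {n : ℕ} (hn : n ≠ 0) :
    2 ^ ArithmeticFunction.cardFactors n ≤ n := by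
  rw [ArithmeticFunction.cardFactors_apply]
  conv_rhs => rw [← Nat.prod_primeFactorsList hn]
  refine List.pow_card_le_prod _ _ ?_
  intro p hp
  exact (Nat.prime_of_mem_primeFactorsList hp).two_le

theorem dvd_factorial_pow {n l y : ℕ} (hn : n ≠ 0) (hl : n ≤ 2 ^ l)
    (h : ∀ r : ℕ, r.Prime → r ∣ n → r ≤ y) : n ∣ (Nat.factorial y) ^ l := by
  rw [← Nat.factorization_prime_le_iff_dvd hn (pow_ne_zero _ (Nat.factorial_ne_zero y))]
  intro r hr
  rw [Nat.factorization_pow, Finsupp.smul_apply, smul_eq_mul]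
  by_cases hrn : r ∣ n
  · have hry := h r hr hrn
    have h1 : 1 ≤ (Nat.factorial y).factorization r := by
      rw [← hr.dvd_iff_one_le_factorization (Nat.factorial_ne_zero y)]
      exact (hr.dvd_factorial).2 hry
    have h2 : r ^ (n.factorization r) ∣ n := Nat.ordProj_dvd n r
    have h3 : 2 ^ (n.factorization r) ≤ 2 ^ l := by
      calc 2 ^ (n.factorization r) ≤ r ^ (n.factorization r) := Nat.pow_le_pow_left hr.two_le _
        _ ≤ n := Nat.le_of_dvd (Nat.pos_of_ne_zero hn) h2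
        _ ≤ 2 ^ l := hl
    have h4 : n.factorization r ≤ l := (Nat.pow_le_pow_iff_right (by norm_num)).1 h3
    nlinarith
  · rw [Nat.factorization_eq_zero_of_not_dvd hrn]
    exact Nat.zero_le _

theorem choose_lower {n u B : ℕ} (h : u * B ≤ n + 1 - u) : B ^ u ≤ n.choose u := by
  have h1 := Nat.pow_sub_le_descFactorial n u
  rw [Nat.descFactorial_eq_factorial_mul_choose] at h1
  have h2 : (u * B) ^ u ≤ u.factorial * n.choose u := (Nat.pow_le_pow_left h u).trans h1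
  rw [mul_pow] at h2
  have h3 : u.factorial ≤ u ^ u := Nat.factorial_le_pow u
  have h4 : u ^ u * B ^ u ≤ u ^ u * n.choose u :=
    h2.trans (Nat.mul_le_mul_right _ h3)
  rcases Nat.eq_zero_or_pos u with h5 | h5
  · subst h5; simp
  · exact Nat.le_of_mul_le_mul_left h4 (by positivity)

/-- the inequalities between the parameters -/
theorem params (N K c0 e0 N0 : ℕ) (hN : 4 ≤ N) (hK : 1 ≤ K) : ∃ w1 : ℕ, ∀ w : ℕ, w1 ≤ w →
    1 ≤ w ∧ N0 ≤ w ∧ 4 * N * w ≤ 2 ^ ((4 * N - 1) * w) ∧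
    3 * (4 * N * w) ^ 3 * 2 ^ ((4 * N - 4) * w) + e0 ≤ 2 ^ ((4 * N - 1) * w) ∧
    (∀ v : ℕ, v * (2 * N * w) ≤ 2 ^ ((4 * N - 1) * w) * K →
      v + 3 * (4 * N * w) ^ 3 * 2 ^ ((4 * N - 4) * w) + c0 + K + (4 * N - 1) * w + 1 ≤
        w * (2 ^ ((4 * N - 1) * w) / (64 * N * w))) ∧
    (∀ t : ℕ, 2 ^ (4 * N * w) ≤ 8 * N * w * t →
      2 ^ ((4 * N - 1) * w) / (64 * N * w) * 2 ^ w + 2 ^ ((4 * N - 1) * w) / (64 * N * w) ≤ t) ∧
    (∀ v t : ℕ, v * (2 * N * w) ≤ 2 ^ ((4 * N - 1) * w) * K → 2 ^ (4 * N * w) ≤ 8 * N * w * t →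
      2 ^ ((4 * N - 1) * w) / (64 * N * w) + v + 1 < t) := by
  obtain ⟨w1, hw1⟩ := poly_le (200000 * N ^ 4 * (K + c0 + e0 + N0 + 1))
  refine ⟨w1 + 128 * K + N0 + 1, fun w hw => ?_⟩
  have hX := hw1 w (by omega)
  have hw0 : 1 ≤ w := by omega
  have hw128 : 128 * K ≤ w := by omega
  set X := 2 ^ w with hXdef
  set y := 2 ^ ((4 * N - 4) * w) with hy
  have hy1 : 1 ≤ y := Nat.one_le_two_pow
  have hX1 : 1 ≤ X := Nat.one_le_two_pow
  have hm : 2 ^ ((4 * N - 1) * w) = y * X ^ 3 := by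
    rw [hy, hXdef, ← pow_mul, ← pow_add]
    congr 1
    obtain ⟨M, rfl⟩ : ∃ M, N = M + 1 := ⟨N - 1, by omega⟩
    have h1 : 4 * (M + 1) - 1 = 4 * M + 3 := by omega
    have h2 : 4 * (M + 1) - 4 = 4 * M := by omega
    rw [h1, h2]
    ring
  have hl : 2 ^ (4 * N * w) = y * X ^ 3 * X := by
    rw [hy, hXdef, ← pow_mul, ← pow_add, ← pow_add]
    congr 1
    obtain ⟨M, rfl⟩ : ∃ M, N = M + 1 := ⟨N - 1, by omega⟩
    have h2 : 4 * (M + 1) - 4 = 4 * M := by omega
    rw [h2]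
    ring
  rw [hm, hl]
  set m := y * X ^ 3 with hmdef
  -- consequences of `hX`
  set Q := K + c0 + e0 + N0 + 1 with hQ
  have hQ1 : 1 ≤ Q := by omega
  have hw3 : w ≤ w ^ 3 := Nat.le_self_pow (by norm_num) w
  have hw31 : 1 ≤ w ^ 3 := Nat.one_le_pow _ _ hw0
  have hN41 : 1 ≤ N ^ 4 := Nat.one_le_pow _ _ (by omega)
  have hNN : N ≤ N ^ 4 := Nat.le_self_pow (by norm_num) N
  have hN2 : N ^ 2 ≤ N ^ 4 := Nat.pow_le_pow_right (by omega) (by norm_num)
  have hN3 : N ^ 3 ≤ N ^ 4 := Nat.pow_le_pow_right (by omega) (by norm_num)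
  have hyX : y * X ≤ m := by
    rw [hmdef]
    apply Nat.mul_le_mul_left
    exact Nat.le_self_pow (by norm_num) X
  have hXm : X ≤ m := by nlinarith
  -- B := N^4 * Q * w^3
  set B := N ^ 4 * Q * w ^ 3 with hB
  have hXB : 200000 * B ≤ X := by
    rw [hB]; calc _ = 200000 * N ^ 4 * Q * w ^ 3 := by ring
      _ ≤ X := hX
  have b1 : N ^ 4 * w ^ 3 ≤ B := by
    rw [hB]; calc N ^ 4 * w ^ 3 = N ^ 4 * 1 * w ^ 3 := by ring
      _ ≤ N ^ 4 * Q * w ^ 3 := by gcongr
  have b2 : N ^ 3 * w ^ 3 ≤ B := le_trans (by gcongr) b1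
  have b3 : N * w ≤ B := le_trans (by gcongr) b1
  have b4 : N ^ 2 * w ≤ B := le_trans (by gcongr) b1
  have b5 : N * Q ≤ B := by
    rw [hB]; calc N * Q = N * Q * 1 := by ring
      _ ≤ N ^ 4 * Q * w ^ 3 := by gcongr
  have b6 : Q ≤ B := le_trans (by nlinarith) b5
  have hBy : 200000 * (y * B) ≤ m := by
    calc 200000 * (y * B) = y * (200000 * B) := by ring
      _ ≤ y * X := by gcongr
      _ ≤ m := hyX
  have hBm : 200000 * B ≤ m := hXB.trans hXm
  have hyB2 : y * (N ^ 3 * w ^ 3) ≤ y * B := by gcongr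
  have hyB1 : y * (N ^ 4 * w ^ 3) ≤ y * B := by gcongr
  have hl3 : 3 * (4 * N * w) ^ 3 * y = 192 * (y * (N ^ 3 * w ^ 3)) := by ring
  have hu : m / (64 * N * w) * (64 * N * w) ≤ m := Nat.div_mul_le_self _ _
  have hNw : 0 < 64 * N * w := by positivity
  have hu2 : m < (m / (64 * N * w) + 1) * (64 * N * w) := by
    exact Nat.lt_mul_of_div_lt (Nat.lt_succ_self _) hNw
  set u := m / (64 * N * w) with hudef
  have hXu : 8 * (u * X) * (8 * N * w) ≤ m * X := by
    calc 8 * (u * X) * (8 * N * w) = u * (64 * N * w) * X := by ring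
      _ ≤ m * X := by gcongr
  have hNw8 : 0 < 8 * N * w := by positivity
  have hut : ∀ t : ℕ, m * X ≤ 8 * N * w * t → 8 * (u * X) ≤ t := by
    intro t ht
    have h1 : 8 * (u * X) * (8 * N * w) ≤ t * (8 * N * w) := by
      calc 8 * (u * X) * (8 * N * w) ≤ m * X := hXu
        _ ≤ 8 * N * w * t := ht
        _ = t * (8 * N * w) := by ring
    exact Nat.le_of_mul_le_mul_right h1 hNw8
  refine ⟨hw0, by omega, ?_, ?_, ?_, ?_, ?_⟩
  · have : 4 * N * w = 4 * (N * w) := by ring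
    omega
  · rw [hl3]
    have : e0 ≤ B := by omega
    omega
  · intro v hv
    rw [hl3]
    have h1 : 256 * (N * v) ≤ m := by
      have h2 : K * (256 * (N * v)) ≤ K * m := by
        calc K * (256 * (N * v)) = v * (2 * N * (128 * K)) := by ring
          _ ≤ v * (2 * N * w) := by gcongr
          _ ≤ m * K := hv
          _ = K * m := by ring
      exact Nat.le_of_mul_le_mul_left h2 hK
    have h3 : (4 * N - 1) * w ≤ 4 * (N * w) := by
      calc (4 * N - 1) * w ≤ (4 * N) * w := Nat.mul_le_mul_right _ (by omega)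
        _ = 4 * (N * w) := by ring
    have h4 : 256 * N * (v + 192 * (y * (N ^ 3 * w ^ 3)) + c0 + K + (4 * N - 1) * w + 1) ≤
        256 * N * (w * u) := by
      have e1 : 256 * N * (v + 192 * (y * (N ^ 3 * w ^ 3)) + c0 + K + (4 * N - 1) * w + 1) ≤
          256 * (N * v) + 49152 * (y * (N ^ 4 * w ^ 3)) + 256 * (N * Q) + 1024 * (N ^ 2 * w) := by
        have e2 : c0 + K + 1 ≤ Q := by omega
        have e3 : 256 * N * (v + 192 * (y * (N ^ 3 * w ^ 3)) + c0 + K + (4 * N - 1) * w + 1) ≤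
          256 * N * (v + 192 * (y * (N ^ 3 * w ^ 3)) + Q + 4 * (N * w)) := by
          apply Nat.mul_le_mul_left
          omega
        refine e3.trans (le_of_eq ?_)
        ring
      have e4 : 4 * m ≤ 256 * N * (w * u) + 256 * (N * w) := by
        have : (u + 1) * (64 * N * w) * 4 = 256 * N * (w * u) + 256 * (N * w) := by ring
        omega
      omega
    exact Nat.le_of_mul_le_mul_left h4 (by positivity)
  · intro t ht
    have h1 := hut t ht
    have h2 : u ≤ u * X := Nat.le_mul_of_pos_right u hX1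
    omega
  · intro v t hv ht
    have h1 := hut t ht
    have h2 : u ≤ u * X := Nat.le_mul_of_pos_right u hX1
    have h3 : v * X ≤ 4 * (t * K) := by
      have h4 : v * X * (2 * N * w) ≤ 4 * (t * K) * (2 * N * w) := by
        calc v * X * (2 * N * w) = v * (2 * N * w) * X := by ring
          _ ≤ m * K * X := by gcongr
          _ = m * X * K := by ring
          _ ≤ 8 * N * w * t * K := by gcongr
          _ = 4 * (t * K) * (2 * N * w) := by ring
      exact Nat.le_of_mul_le_mul_right h4 (by positivity)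
    have h5 : 16 * K ≤ X := by omega
    have h6 : 4 * v ≤ t := by
      have h7 : (16 * K) * v ≤ 4 * (t * K) := by
        calc (16 * K) * v ≤ X * v := by gcongr
          _ = v * X := by ring
          _ ≤ _ := h3
      have h8 : 4 * K * (4 * v) ≤ 4 * K * t := by
        calc 4 * K * (4 * v) = (16 * K) * v := by ring
          _ ≤ 4 * (t * K) := h7
          _ = 4 * K * t := by ring
      exact Nat.le_of_mul_le_mul_left h8 (by positivity)
    have h9 : 8 ≤ t := by
      have h10 : 8 * (8 * N * w) ≤ t * (8 * N * w) := by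
        calc 8 * (8 * N * w) = 64 * (N * w) := by ring
          _ ≤ X := by omega
          _ ≤ m * X := Nat.le_mul_of_pos_left _ (by omega)
          _ ≤ 8 * N * w * t := ht
          _ = t * (8 * N * w) := by ring
      exact Nat.le_of_mul_le_mul_right h10 hNw8
    omega


/-- Carmichael numbers whose prime factors are all large compared with their number -/
theorem carmichael_large (ε : ℝ) (hε : 0 < ε) (N0 : ℕ) : ∃ n z : ℕ, N0 ≤ z ∧ z < n ∧ ¬ n.Prime ∧
    Squarefree n ∧ (∀ p : ℕ, p.Prime → p ∣ n → z < p ∧ p - 1 ∣ n - 1) ∧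
    (n.primeFactors.card : ℝ) ≤ ε * z := by
  classical
  obtain ⟨N, hN, w0, hT⟩ := exists_T
  obtain ⟨K, c, hK, hc, z0, hpage⟩ := Pool.Agent.Y835.SC.page
  obtain ⟨c0, hc0⟩ := exists_pow_lt_of_lt_one hc (by norm_num : (1 / 2 : ℝ) < 1)
  obtain ⟨e0, he0⟩ := exists_pow_lt_of_lt_one hε (by norm_num : (1 / 2 : ℝ) < 1)
  obtain ⟨w1, hw1⟩ := params N K c0 e0 (N0 + z0) hN hK
  obtain ⟨hw, hwN, hlm, hDz, hE, hcnt, hbig⟩ := hw1 (w0 + w1) (by omega)
  obtain ⟨T, hTq, hTc⟩ := hT (w0 + w1) (by omega)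
  set w := w0 + w1 with hwdef
  set l := 4 * N * w with hl
  set m := 2 ^ ((4 * N - 1) * w) with hm
  set y := 2 ^ ((4 * N - 4) * w) with hy
  set u := m / (64 * N * w) with hu
  set z := 2 ^ m with hz
  have hl1 : 1 ≤ l := by rw [hl]; nlinarith
  have hwz : w ≤ z := by
    have h1 : w ≤ l := by rw [hl]; nlinarith
    have h2 : m < z := Nat.lt_two_pow_self
    omega
  have hz1 : 1 ≤ z := Nat.one_le_two_pow
  obtain ⟨q₁, hq₁, hpg⟩ := hpage z (by omega)
  set r₁ := q₁.minFac with hr₁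
  have hr₁p : r₁.Prime := Nat.minFac_prime (by omega)
  set T' := T.erase r₁ with hT'
  have hT'T : T' ⊆ T := erase_subset _ _
  have hT'p : ∀ q ∈ T', q.Prime := fun q hq => (hTq q (hT'T hq)).1
  have hT'c : T.card ≤ T'.card + 1 := by
    have h1 := pred_card_le_card_erase (s := T) (a := r₁)
    rw [← hT'] at h1
    omega
  set DD := T'.powersetCard u with hDD
  have hmem : ∀ I ∈ DD, I ⊆ T' ∧ I.card = u := fun I hI => mem_powersetCard.1 hI
  have hd0 : ∀ I ∈ DD, 0 < ∏ q ∈ I, q := fun I hI =>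
    prod_pos fun q hq => (hT'p q ((hmem I hI).1 hq)).pos
  have hd16 : ∀ I ∈ DD, (∏ q ∈ I, q) ^ 16 ≤ z := by
    intro I hI
    have h1 : ∏ q ∈ I, q ≤ (2 ^ l) ^ u := by
      rw [← (hmem I hI).2]
      apply prod_le_pow_card
      intro q hq
      exact (hTq q (hT'T ((hmem I hI).1 hq))).2.1
    calc (∏ q ∈ I, q) ^ 16 ≤ ((2 ^ l) ^ u) ^ 16 := Nat.pow_le_pow_left h1 16
      _ = 2 ^ (u * (64 * N * w)) := by
        rw [← pow_mul, ← pow_mul, hl]
        congr 1
        ring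
      _ ≤ 2 ^ m := by
        apply Nat.pow_le_pow_right (by norm_num)
        rw [hu]
        exact Nat.div_mul_le_self _ _
  have hnd : ∀ I ∈ DD, ¬ q₁ ∣ ∏ q ∈ I, q := by
    intro I hI h
    have h1 : r₁ ∣ ∏ q ∈ I, q := (Nat.minFac_dvd q₁).trans h
    rw [Prime.dvd_finsetProd_iff hr₁p.prime] at h1
    obtain ⟨q, hq, hrq⟩ := h1
    have hqT := (hmem I hI).1 hq
    have h2 : r₁ = q := (Nat.prime_dvd_prime_iff_eq hr₁p (hT'p q hqT)).1 hrq
    rw [hT', mem_erase] at hqT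
    exact hqT.1 h2.symm
  obtain ⟨k, hk1, hkz, hkc⟩ := find_k (z := z) (M := z ^ K) (c := c) DD
    (fun I => ∏ q ∈ I, q) hd0 hz1 (Nat.one_le_pow _ _ hz1) hc.le
    (fun I hI => hpg _ 1 (hd0 I hI) (hd16 I hI) (hnd I hI) (Nat.coprime_one_left _))
  set F0 := DD.filter (fun I => ((∏ q ∈ I, q) * k + 1).Prime ∧ z < (∏ q ∈ I, q) * k + 1) with hF0
  set V := T'.filter (fun q => q ∣ k) with hV
  -- the number of primes of `T'` dividing `k`
  have hVc : V.card * (2 * N * w) ≤ m * K := by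
    have h1 : ∏ q ∈ V, q ∣ k := by
      apply Finset.prod_primes_dvd
      · intro q hq
        exact (hT'p q (mem_filter.1 hq).1).prime
      · intro q hq
        exact (mem_filter.1 hq).2
    have h2 : (2 ^ (2 * N * w)) ^ V.card ≤ ∏ q ∈ V, q := by
      apply pow_card_le_prod
      intro q hq
      exact (hTq q (hT'T (mem_filter.1 hq).1)).2.2.1.le
    have h3 : (2 ^ (2 * N * w)) ^ V.card ≤ 2 ^ (m * K) := by
      calc (2 ^ (2 * N * w)) ^ V.card ≤ ∏ q ∈ V, q := h2
        _ ≤ k := Nat.le_of_dvd hk1 h1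
        _ ≤ z ^ K := hkz
        _ = 2 ^ (m * K) := by rw [hz, ← pow_mul]
    rw [← pow_mul] at h3
    have h4 := (Nat.pow_le_pow_iff_right (by norm_num)).1 h3
    rw [mul_comm]
    exact h4
  -- the exponent and the bound for the Davenport constant
  set lam := (Nat.factorial y) ^ l with hlam
  have hlam1 : 1 ≤ lam := Nat.one_le_pow _ _ (Nat.factorial_pos y)
  set R := l * 2 ^ l with hR
  have hR1 : 1 ≤ R := Nat.mul_pos hl1 (by positivity)
  have hlamb : lam ≤ 2 ^ (l ^ 2 * y) := by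
    have h1 : Nat.factorial y ≤ y ^ y := Nat.factorial_le_pow y
    calc lam ≤ (y ^ y) ^ l := Nat.pow_le_pow_left h1 l
      _ = 2 ^ ((4 * N - 4) * w * y * l) := by
        have h3 : y ^ y = (2 ^ ((4 * N - 4) * w)) ^ y := by rw [hy]
        rw [h3, ← pow_mul, ← pow_mul, mul_assoc ((4 * N - 4) * w)]
      _ ≤ 2 ^ (l ^ 2 * y) := by
        apply Nat.pow_le_pow_right (by norm_num)
        have h2 : (4 * N - 4) * w ≤ l := by
          rw [hl]
          exact Nat.mul_le_mul_right _ (by omega)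
        calc (4 * N - 4) * w * y * l ≤ l * y * l := by gcongr
          _ = l ^ 2 * y := by ring
  have hΩ : ArithmeticFunction.cardFactors lam ≤ l ^ 2 * y := by
    have h1 := (two_pow_cardFactors_le (n := lam) (by omega)).trans hlamb
    exact (Nat.pow_le_pow_iff_right (by norm_num)).1 h1
  have hR2 : R ≤ 2 ^ (2 * l) := by
    have h1 : l ≤ 2 ^ l := Nat.lt_two_pow_self.le
    calc R ≤ 2 ^ l * 2 ^ l := Nat.mul_le_mul_right _ h1
      _ = 2 ^ (2 * l) := by rw [← pow_add]; congr 1; ring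
  have hD : lam * R ^ ArithmeticFunction.cardFactors lam ≤ 2 ^ (3 * l ^ 3 * y) := by
    calc lam * R ^ ArithmeticFunction.cardFactors lam
        ≤ 2 ^ (l ^ 2 * y) * (2 ^ (2 * l)) ^ (l ^ 2 * y) := by
          apply Nat.mul_le_mul hlamb
          exact (Nat.pow_le_pow_left hR2 _).trans
            (Nat.pow_le_pow_right (by positivity) hΩ)
      _ = 2 ^ (l ^ 2 * y * (1 + 2 * l)) := by
          rw [← pow_mul, ← pow_add]
          congr 1
          ring
      _ ≤ 2 ^ (3 * l ^ 3 * y) := by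
          apply Nat.pow_le_pow_right (by norm_num)
          calc l ^ 2 * y * (1 + 2 * l) ≤ l ^ 2 * y * (3 * l) := by gcongr; omega
            _ = 3 * l ^ 3 * y := by ring
  -- many primes
  have hDDc : 2 ^ (w * u) ≤ DD.card := by
    rw [hDD, card_powersetCard, pow_mul]
    apply choose_lower
    have h1 := hcnt T.card hTc
    omega
  have hF0c : 2 ^ V.card * 2 ^ (3 * l ^ 3 * y) ≤ F0.card := by
    have h1 : (2 : ℝ) ^ (w * u) ≤ DD.card := by exact_mod_cast hDDc
    have h2 : Real.log ((z ^ K : ℕ) : ℝ) ≤ (m * K : ℕ) := by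
      have h3 : ((z ^ K : ℕ) : ℝ) = (2 : ℝ) ^ (m * K) := by
        rw [hz]; push_cast; rw [← pow_mul]
      rw [h3, Real.log_pow]
      have h4 : Real.log 2 ≤ 1 := by
        have := Real.log_two_lt_d9
        linarith
      have h5 : (0 : ℝ) ≤ ((m * K : ℕ) : ℝ) := by positivity
      nlinarith
    have h3 : (1 : ℝ) + Real.log ((z ^ K : ℕ) : ℝ) ≤ 2 ^ (K + (4 * N - 1) * w + 1) := by
      have h4 : 1 + m * K ≤ 2 ^ (K + (4 * N - 1) * w + 1) := by
        have h5 : K < 2 ^ K := Nat.lt_two_pow_self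
        have h6 : m * K + 1 ≤ m * 2 ^ K := by
          have h8 : 1 ≤ m := Nat.one_le_two_pow
          calc m * K + 1 ≤ m * K + m := by omega
            _ = m * (K + 1) := by ring
            _ ≤ m * 2 ^ K := Nat.mul_le_mul_left _ h5
        calc 1 + m * K ≤ m * 2 ^ K := by omega
          _ = 2 ^ (K + (4 * N - 1) * w) := by rw [hm, ← pow_add]; congr 1; ring
          _ ≤ 2 ^ (K + (4 * N - 1) * w + 1) := Nat.pow_le_pow_right (by norm_num) (by omega)
      have h5 : (1 : ℝ) + ((m * K : ℕ) : ℝ) ≤ 2 ^ (K + (4 * N - 1) * w + 1) := by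
        exact_mod_cast h4
      linarith
    have h4 : (1 / 2 : ℝ) ^ c0 * 2 ^ (w * u) ≤
        2 ^ (K + (4 * N - 1) * w + 1) * (F0.card : ℝ) := by
      calc (1 / 2 : ℝ) ^ c0 * 2 ^ (w * u) ≤ c * DD.card := by gcongr
        _ ≤ (1 + Real.log ((z ^ K : ℕ) : ℝ)) * (F0.card : ℝ) := hkc
        _ ≤ 2 ^ (K + (4 * N - 1) * w + 1) * (F0.card : ℝ) := by gcongr
    have h5 : (2 : ℝ) ^ (w * u) ≤ 2 ^ c0 * 2 ^ (K + (4 * N - 1) * w + 1) * (F0.card : ℝ) := by
      have h6 : (2 : ℝ) ^ c0 * ((1 / 2 : ℝ) ^ c0 * 2 ^ (w * u)) = 2 ^ (w * u) := by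
        rw [← mul_assoc, ← mul_pow]
        norm_num
      rw [← h6, mul_assoc]
      gcongr
    have h6 : 2 ^ (w * u) ≤ 2 ^ c0 * 2 ^ (K + (4 * N - 1) * w + 1) * F0.card := by
      exact_mod_cast h5
    have h7 := hE V.card hVc
    have h8 : 2 ^ c0 * 2 ^ (K + (4 * N - 1) * w + 1) * (2 ^ V.card * 2 ^ (3 * l ^ 3 * y)) ≤
        2 ^ (w * u) := by
      rw [← pow_add, ← pow_add, ← pow_add]
      apply Nat.pow_le_pow_right (by norm_num)
      omega
    exact Nat.le_of_mul_le_mul_left (h8.trans h6) (by positivity)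
  obtain ⟨J, hJ, hJc⟩ := exists_le_card_fiber_of_mul_le_card_of_maps_to
    (s := F0) (t := V.powerset) (f := fun I => I.filter (fun q => q ∣ k))
    (n := 2 ^ (3 * l ^ 3 * y)) (by
      intro I hI
      rw [mem_powerset, hV]
      exact filter_subset_filter _ (hmem I (mem_filter.1 hI).1).1)
    (powerset_nonempty _) (by rw [card_powerset]; exact hF0c)
  set F := F0.filter (fun I => I.filter (fun q => q ∣ k) = J) with hFdef
  have hWbig : u < (T'.filter (fun q => ¬ q ∣ k)).card := by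
    have h1 := card_filter_add_card_filter_not (s := T') (fun q => q ∣ k)
    rw [← hV] at h1
    have h2 := hbig V.card T.card hVc hTc
    omega
  obtain ⟨S, hSF, hSne, hSc, hnp, hsq, hpr⟩ := core (k := k) (z := z) (lam := lam) (R := R)
    (T := T') (fun q hq => ⟨hT'p q hq, by
      have h1 := (hTq q (hT'T hq)).2.1
      have h2 : 2 ^ l ≤ 2 ^ m := Nat.pow_le_pow_right (by norm_num) hlm
      omega⟩) hk1 hlam1
    (fun q hq => by
      have h1 := hTq q (hT'T hq)
      have h2 := h1.1.two_le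
      exact dvd_factorial_pow (by omega) (by omega) h1.2.2.2) hR1
    (by
      have h1 : ∏ q ∈ T'.filter (fun q => ¬ q ∣ k), q ≤
          (2 ^ l) ^ (T'.filter (fun q => ¬ q ∣ k)).card := by
        apply prod_le_pow_card
        intro q hq
        exact (hTq q (hT'T (mem_filter.1 hq).1)).2.1
      refine h1.trans ?_
      rw [← pow_mul, hR]
      apply Nat.pow_le_pow_right (by norm_num)
      apply Nat.mul_le_mul_left
      have h2 : T'.filter (fun q => ¬ q ∣ k) ⊆ Icc 1 (2 ^ l) := by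
        intro q hq
        have h3 := hTq q (hT'T (mem_filter.1 hq).1)
        exact mem_Icc.2 ⟨h3.1.one_lt.le, h3.2.1⟩
      have h3 := card_le_card h2
      rwa [Nat.card_Icc, Nat.add_sub_cancel] at h3)
    J F (fun I hI => by
      rw [hFdef, mem_filter, hF0, mem_filter] at hI
      obtain ⟨⟨h1, h2, h3⟩, h4⟩ := hI
      refine ⟨(hmem I h1).1, h4, h2, h3, fun h5 => ?_⟩
      have h6 := card_le_card h5
      rw [(hmem I h1).2] at h6
      omega)
    (hD.trans hJc)
  set n := ∏ I ∈ S, ((∏ q ∈ I, q) * k + 1) with hn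
  have hSz : ∀ I ∈ S, z < (∏ q ∈ I, q) * k + 1 := by
    intro I hI
    have h1 := hSF hI
    rw [hFdef, mem_filter, hF0, mem_filter] at h1
    exact h1.1.2.2
  have hn0 : 0 < n := prod_pos fun I _ => by positivity
  refine ⟨n, z, by omega, ?_, hnp, hsq, ?_, ?_⟩
  · obtain ⟨I, hI⟩ := hSne
    have h1 : (∏ q ∈ I, q) * k + 1 ∣ n :=
      dvd_prod_of_mem (fun I => (∏ q ∈ I, q) * k + 1) hI
    exact (hSz I hI).trans_le (Nat.le_of_dvd hn0 h1)
  · intro p hp hpn
    obtain ⟨⟨I, hI, hpI⟩, h2⟩ := hpr p hp hpn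
    exact ⟨by rw [hpI]; exact hSz I hI, h2⟩
  · have h1 : n.primeFactors.card ≤ S.card := by
      have h2 : n.primeFactors ⊆ S.image (fun I => (∏ q ∈ I, q) * k + 1) := by
        intro p hp
        rw [Nat.mem_primeFactors] at hp
        obtain ⟨⟨I, hI, hpI⟩, -⟩ := hpr p hp.1 hp.2.1
        exact mem_image.2 ⟨I, hI, hpI.symm⟩
      exact (card_le_card h2).trans card_image_le
    have h2 : n.primeFactors.card ≤ 2 ^ (3 * l ^ 3 * y) := (h1.trans hSc).trans hD
    have h3 : (2 : ℝ) ^ (3 * l ^ 3 * y) * 2 ^ e0 ≤ 2 ^ m := by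
      rw [← pow_add]
      exact pow_le_pow_right₀ (by norm_num) hDz
    have h4 : (n.primeFactors.card : ℝ) ≤ 2 ^ (3 * l ^ 3 * y) := by exact_mod_cast h2
    have h5 : (2 : ℝ) ^ (3 * l ^ 3 * y) = (1 / 2) ^ e0 * (2 ^ (3 * l ^ 3 * y) * 2 ^ e0) := by
      rw [mul_comm ((2 : ℝ) ^ (3 * l ^ 3 * y)), ← mul_assoc, ← mul_pow]
      norm_num
    have h6 : ((z : ℕ) : ℝ) = 2 ^ m := by rw [hz]; push_cast; rfl
    rw [h6]
    calc (n.primeFactors.card : ℝ) ≤ 2 ^ (3 * l ^ 3 * y) := h4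
      _ = (1 / 2) ^ e0 * (2 ^ (3 * l ^ 3 * y) * 2 ^ e0) := h5
      _ ≤ ε * 2 ^ m := by gcongr

end Pool.Agent.R495
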