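import Mathlib
import Pool.Agent.R495.Main

/-!
Composite numbers `n` for which almost all residues are Fermat liars.
-/

set_option autoImplicit false

namespace Pool.Agent.R495

open Finset

theorem one_sub_sum_le_prod {s : Finset ℕ} {x : ℕ → ℝ} (h0 : ∀ i ∈ s, 0 ≤ x i)
    (h1 : ∀ i ∈ s, x i ≤ 1) : 1 - ∑ i ∈ s, x i ≤ ∏ i ∈ s, (1 - x i) ∧ ∏ i ∈ s, (1 - x i) ≤ 1 := by
  classical
  induction s using Finset.induction_on with
  | empty => simp
  | insert a s ha ih =>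
    have h2 := ih (fun i hi => h0 i (mem_insert_of_mem hi)) (fun i hi => h1 i (mem_insert_of_mem hi))
    rw [sum_insert ha, prod_insert ha]
    have h3 := h0 a (mem_insert_self a s)
    have h4 := h1 a (mem_insert_self a s)
    have h5 : 0 ≤ ∏ i ∈ s, (1 - x i) :=
      prod_nonneg fun i hi => by have := h1 i (mem_insert_of_mem hi); linarith
    constructor
    · nlinarith [h2.1, h2.2]
    · nlinarith [h2.1, h2.2]

/-- a number all of whose prime factors exceed `z` and with at most `ε z` prime factors -/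
theorem totient_lower {n z : ℕ} {ε : ℝ} (hn : 0 < n) (hz : 0 < z)
    (h : ∀ p : ℕ, p.Prime → p ∣ n → z < p) (hc : (n.primeFactors.card : ℝ) ≤ ε * z) :
    (1 - ε) * n ≤ (n.totient : ℝ) := by
  have h1 : (n.totient : ℝ) = n * ∏ p ∈ n.primeFactors, (1 - (p : ℝ)⁻¹) := by
    have := Nat.totient_eq_mul_prod_factors n
    have h2 := congrArg (fun x : ℚ => (x : ℝ)) this
    push_cast at h2
    exact h2
  have hz0 : (0 : ℝ) < z := by exact_mod_cast hz
  have hp : ∀ p ∈ n.primeFactors, (0 : ℝ) ≤ (p : ℝ)⁻¹ ∧ (p : ℝ)⁻¹ ≤ (z : ℝ)⁻¹ := by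
    intro p hp
    rw [Nat.mem_primeFactors] at hp
    have h3 : (z : ℝ) ≤ p := by exact_mod_cast (h p hp.1 hp.2.1).le
    exact ⟨by positivity, inv_anti₀ hz0 h3⟩
  have hz1 : (z : ℝ)⁻¹ ≤ 1 := inv_le_one_of_one_le₀ (by exact_mod_cast hz)
  have h2 := (one_sub_sum_le_prod (s := n.primeFactors) (x := fun p => (p : ℝ)⁻¹)
    (fun p hpp => (hp p hpp).1) (fun p hpp => (hp p hpp).2.trans hz1)).1
  have h3 : ∑ p ∈ n.primeFactors, (p : ℝ)⁻¹ ≤ ε := by
    calc ∑ p ∈ n.primeFactors, (p : ℝ)⁻¹ ≤ ∑ _p ∈ n.primeFactors, (z : ℝ)⁻¹ :=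
          sum_le_sum fun p hpp => (hp p hpp).2
      _ = (n.primeFactors.card : ℝ) * (z : ℝ)⁻¹ := by rw [sum_const, nsmul_eq_mul]
      _ ≤ ε * z * (z : ℝ)⁻¹ := by gcongr
      _ = ε := by field_simp
  rw [h1, mul_comm]
  have hn0 : (0 : ℝ) ≤ n := Nat.cast_nonneg n
  apply mul_le_mul_of_nonneg_left _ hn0
  linarith

/-- a Carmichael number: the residues coprime to `n` are Fermat liars -/
theorem liars {n : ℕ} (hsq : Squarefree n) (h : ∀ p : ℕ, p.Prime → p ∣ n → p - 1 ∣ n - 1)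
    {a : ℕ} (ha : Nat.Coprime a n) : a ^ (n - 1) ≡ 1 [MOD n] := by
  have h1 := units_exp (W := n.primeFactors) (fun q hq => (Nat.mem_primeFactors.1 hq).1)
    (Nat.prod_primeFactors_of_squarefree hsq).symm
    (fun q hq => h q (Nat.mem_primeFactors.1 hq).1 (Nat.mem_primeFactors.1 hq).2.1)
    (ZMod.unitOfCoprime a ha)
  rw [← ZMod.natCast_eq_natCast_iff, Nat.cast_pow, Nat.cast_one]
  have h2 := congrArg (Units.val) h1
  rw [Units.val_pow_eq_pow_val, ZMod.coe_unitOfCoprime, Units.val_one] at h2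
  exact h2

theorem exists_liars (ε : ℝ) (hε : 0 < ε) (N : ℕ) : ∃ n : ℕ, N < n ∧ 1 < n ∧ ¬ Nat.Prime n ∧
    (1 - ε) * (n : ℝ) <
      (((Finset.range n).filter (fun a => a ^ (n - 1) ≡ 1 [MOD n])).card : ℝ) := by
  obtain ⟨n, z, h1, h2, h3, h4, h5, h6⟩ := carmichael_large (ε / 2) (by positivity) (N + 1)
  have hn : 0 < n := by omega
  refine ⟨n, by omega, by omega, h3, ?_⟩
  have h7 := totient_lower hn (by omega : 0 < z) (fun p hp hpn => (h5 p hp hpn).1) h6
  have h8 : n.totient ≤ ((Finset.range n).filter (fun a => a ^ (n - 1) ≡ 1 [MOD n])).card := by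
    unfold Nat.totient
    apply card_le_card
    intro a ha
    rw [mem_filter] at ha ⊢
    exact ⟨ha.1, liars h4 (fun p hp hpn => (h5 p hp hpn).2) ha.2.symm⟩
  have h9 : (n.totient : ℝ) ≤
      (((Finset.range n).filter (fun a => a ^ (n - 1) ≡ 1 [MOD n])).card : ℝ) := by
    exact_mod_cast h8
  have hn0 : (0 : ℝ) < n := by exact_mod_cast hn
  nlinarith

end Pool.Agent.R495
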